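import Pool.Agent.H14R2.RD.S.EXB
import Pool.Agent.H14R2.RD.S.GT

/-! Task AW of helper14 (RC3): Ahlswede-Winter steps. -/

namespace RC14
open scoped InnerProductSpace
open Finset

variable {G : Type*} [Group G] [Fintype G]
variable {V : Type*} [NormedAddCommGroup V] [InnerProductSpace ℂ V] [FiniteDimensional ℂ V]

namespace AW

theorem trace_real (B : Module.End ℂ V) (hB : B.IsSymmetric) :
    LinearMap.trace ℂ V B = (rtr B : ℂ) := by
  have h : (LinearMap.trace ℂ V B).im = 0 := by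
    rw [LinearMap.trace_eq_sum_inner _ (stdOrthonormalBasis ℂ V), Complex.im_sum]
    refine Finset.sum_eq_zero fun i _ => ?_
    have h1 := hB (stdOrthonormalBasis ℂ V i) (stdOrthonormalBasis ℂ V i)
    rw [← inner_conj_symm] at h1
    exact Complex.conj_eq_iff_im.mp h1
  apply Complex.ext
  · rw [Complex.ofReal_re]; rfl
  · rw [Complex.ofReal_im]; exact h

theorem cj_symm (ρ : G →* (V ≃ₗᵢ[ℂ] V)) (E : Module.End ℂ V) (hE : E.IsSymmetric) (z : G) :
    (cj ρ E z).IsSymmetric := by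
  intro v w
  have h1 : ∀ (g : G) (v w : V), ⟪ρ g v, w⟫_ℂ = ⟪v, ρ g⁻¹ w⟫_ℂ := by
    intro g v w
    have h2 : w = ρ g (ρ g⁻¹ w) := by
      rw [map_inv]
      exact ((ρ g).apply_symm_apply w).symm
    conv_lhs => rw [h2]
    exact (ρ g).inner_map_map _ _
  simp only [cj, Module.End.mul_apply, op_apply]
  rw [h1, hE, h1, inv_inv]

theorem rtr_ex_nonneg (A : Module.End ℂ V) (hA : A.IsSymmetric) : 0 ≤ rtr (ex A) := by
  unfold rtr
  rw [LinearMap.trace_eq_sum_inner _ (stdOrthonormalBasis ℂ V), Complex.re_sum]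
  refine Finset.sum_nonneg fun i _ => ?_
  have h1 := ex_pos A hA (stdOrthonormalBasis ℂ V i)
  rw [← inner_conj_symm, Complex.conj_re]
  exact h1

theorem sum_symm {ι : Type*} (s : Finset ι) (A : ι → Module.End ℂ V)
    (h : ∀ i ∈ s, (A i).IsSymmetric) : (∑ i ∈ s, A i).IsSymmetric := by
  intro v w
  rw [LinearMap.sum_apply, LinearMap.sum_apply, sum_inner, inner_sum]
  exact Finset.sum_congr rfl fun i hi => h i hi v w

end AW

/-- one random conjugate (Ahlswede-Winter step) -/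
theorem AW (ρ : G →* (V ≃ₗᵢ[ℂ] V)) (hirr : Irr ρ ⊤) (X A : Module.End ℂ V)
    (hX : X.IsSymmetric) (hA : A.IsSymmetric) :
    ∑ g, rtr (ex (X + cj ρ A g)) ≤
      Fintype.card G * (rtr (ex A) / Module.finrank ℂ V) * rtr (ex X) := by
  have h1 : ∀ g, rtr (ex (X + cj ρ A g)) ≤ rtr (ex X * cj ρ (ex A) g) := by
    intro g
    have := GT X (cj ρ A g) hX (AW.cj_symm ρ A hA g)
    rwa [ex_conj] at this
  refine (Finset.sum_le_sum fun g _ => h1 g).trans (le_of_eq ?_)
  have h2 : ∑ g, rtr (ex X * cj ρ (ex A) g) = rtr (ex X * ∑ g, cj ρ (ex A) g) := by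
    unfold rtr
    rw [Finset.mul_sum, map_sum, Complex.re_sum]
  rw [h2, SCHUR_avg ρ hirr]
  unfold rtr
  rw [mul_smul_comm, mul_one, map_smul, smul_eq_mul, AW.trace_real _ (ex_symm A hA),
    AW.trace_real _ (ex_symm X hX)]
  have h3 : ((Fintype.card G : ℂ) * (rtr (ex A) : ℂ) / (Module.finrank ℂ V : ℂ)) *
      (rtr (ex X) : ℂ) =
      ((((Fintype.card G : ℝ) * (rtr (ex A) / (Module.finrank ℂ V : ℝ)) * rtr (ex X) : ℝ)) : ℂ) := by
    push_cast
    ring
  rw [h3, Complex.ofReal_re, Complex.ofReal_re, Complex.ofReal_re]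

/-- `q` independent random conjugates -/
theorem AWQ (ρ : G →* (V ≃ₗᵢ[ℂ] V)) (hirr : Irr ρ ⊤) (A : Module.End ℂ V)
    (hA : A.IsSymmetric) (q : ℕ) :
    ∑ z : Fin q → G, rtr (ex (∑ i, cj ρ A (z i))) ≤
      (Fintype.card G : ℝ) ^ q * Module.finrank ℂ V * (rtr (ex A) / Module.finrank ℂ V) ^ q := by
  induction q with
  | zero =>
    rw [Fintype.sum_unique, Finset.univ_eq_empty, Finset.sum_empty, ex_zero, pow_zero, pow_zero,
      one_mul, mul_one]
    unfold rtr
    rw [LinearMap.trace_one]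
    simp
  | succ q ih =>
    have h1 : ∑ z : Fin (q + 1) → G, rtr (ex (∑ i, cj ρ A (z i))) =
        ∑ p : G × (Fin q → G), rtr (ex ((∑ i, cj ρ A (p.2 i)) + cj ρ A p.1)) := by
      refine (Fintype.sum_equiv (Fin.consEquiv fun _ => G) _ _ fun p => ?_).symm
      rw [Fin.sum_univ_succ, add_comm]
      rfl
    rw [h1, Fintype.sum_prod_type, Finset.sum_comm]
    have h2 : 0 ≤ (Fintype.card G : ℝ) * (rtr (ex A) / Module.finrank ℂ V) :=
      mul_nonneg (Nat.cast_nonneg _)
        (div_nonneg (AW.rtr_ex_nonneg A hA) (Nat.cast_nonneg _))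
    calc ∑ z : Fin q → G, ∑ g, rtr (ex ((∑ i, cj ρ A (z i)) + cj ρ A g))
        ≤ ∑ z : Fin q → G, (Fintype.card G * (rtr (ex A) / Module.finrank ℂ V) *
            rtr (ex (∑ i, cj ρ A (z i)))) :=
          Finset.sum_le_sum fun z _ => AW ρ hirr _ A
            (AW.sum_symm _ _ fun i _ => AW.cj_symm ρ A hA _) hA
      _ = (Fintype.card G * (rtr (ex A) / Module.finrank ℂ V)) *
            ∑ z : Fin q → G, rtr (ex (∑ i, cj ρ A (z i))) := by rw [Finset.mul_sum]
      _ ≤ (Fintype.card G * (rtr (ex A) / Module.finrank ℂ V)) *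
            ((Fintype.card G : ℝ) ^ q * Module.finrank ℂ V *
              (rtr (ex A) / Module.finrank ℂ V) ^ q) := mul_le_mul_of_nonneg_left ih h2
      _ = _ := by ring

end RC14
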